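import Mathlib

set_option autoImplicit false
open Submodule Cardinal

namespace Pool.Agent.H.MP_5cf805_al

universe u
variable {K : Type*} [Field K] {V : Type u} [AddCommGroup V] [Module K V]

def Big (S : Submodule K V) : Prop :=
  ∃ Y : Submodule K V, Disjoint Y S ∧ Module.rank K V ≤ Module.rank K Y

lemma Big.compl {S C : Submodule K V} (h : Big S) (hC : IsCompl S C) :
    Module.rank K C = Module.rank K V := by
  obtain ⟨Y, hY, hr⟩ := h
  refine le_antisymm (Submodule.rank_le C) (hr.trans ?_)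
  refine LinearMap.rank_le_of_injective ((C.linearProjOfIsCompl S hC.symm).comp Y.subtype) ?_
  rw [← LinearMap.ker_eq_bot, eq_bot_iff]
  intro y hy
  have : (y : V) ∈ S := (linearProjOfIsCompl_apply_eq_zero_iff hC.symm).1 hy
  exact Subtype.ext ((disjoint_def.1 hY) y y.2 this)

lemma ext {W : Type*} [AddCommGroup W] [Module K W] (φ ψ : W →ₗ[K] V)
    (hφ : Function.Injective φ) (hψ : Function.Injective ψ) (bφ : Big (LinearMap.range φ))
    (bψ : Big (LinearMap.range ψ)) : ∃ g : V ≃ₗ[K] V, ∀ w, g (φ w) = ψ w := by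
  obtain ⟨C, hC⟩ := (LinearMap.range φ).exists_isCompl
  obtain ⟨D, hD⟩ := (LinearMap.range ψ).exists_isCompl
  obtain ⟨e⟩ := LinearEquiv.nonempty_equiv_iff_rank_eq.2
    ((bφ.compl hC).trans (bψ.compl hD).symm)
  refine ⟨(prodEquivOfIsCompl _ _ hC).symm.trans
    ((((LinearEquiv.ofInjective φ hφ).symm.trans (LinearEquiv.ofInjective ψ hψ)).prodCongr e).trans
      (prodEquivOfIsCompl _ _ hD)), fun w => ?_⟩
  have h1 : (prodEquivOfIsCompl _ _ hC).symm (φ w) = (LinearEquiv.ofInjective φ hφ w, 0) :=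
    prodEquivOfIsCompl_symm_apply_left _ _ hC (LinearEquiv.ofInjective φ hφ w)
  simp [h1]

lemma inf_rank (hV : ¬ Module.Finite K V) : ℵ₀ ≤ Module.rank K V := by
  by_contra h
  exact hV (Module.rank_lt_aleph0_iff.1 (not_le.1 h))

lemma exists_e (hV : ¬ Module.Finite K V) : Nonempty ((ℕ →₀ V) ≃ₗ[K] V) := by
  refine LinearEquiv.nonempty_equiv_iff_rank_eq.2 ?_
  rw [rank_finsupp]
  simp [Cardinal.mul_eq_right (inf_rank hV) (inf_rank hV) aleph0_ne_zero]

lemma big_of_lt (hV : ¬ Module.Finite K V) {S : Submodule K V}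
    (h : Module.rank K S < Module.rank K V) : Big S := by
  obtain ⟨C, hC⟩ := S.exists_isCompl
  refine ⟨C, hC.symm.disjoint, not_lt.1 fun hl => ?_⟩
  have h1 := Submodule.rank_add_le_rank_add_rank S C
  rw [hC.sup_eq_top, rank_top] at h1
  exact absurd (Cardinal.add_lt_of_lt (inf_rank hV) h hl) (not_lt.2 h1)

lemma two (hV : ¬ Module.Finite K V) {X : Submodule K V}
    (h : Module.rank K V ≤ Module.rank K X) : ∃ Y₁ ≤ X, ∃ Y₂ ≤ X, Disjoint Y₁ Y₂ ∧
      Module.rank K V ≤ Module.rank K Y₁ ∧ Module.rank K V ≤ Module.rank K Y₂ := by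
  obtain ⟨e⟩ := exists_e hV
  obtain ⟨f⟩ := LinearEquiv.nonempty_equiv_iff_rank_eq.2 (le_antisymm h (Submodule.rank_le X))
  let j : ℕ → V →ₗ[K] V := fun i =>
    X.subtype ∘ₗ f.toLinearMap ∘ₗ e.toLinearMap ∘ₗ Finsupp.lsingle i
  have hj : ∀ i, Function.Injective (j i) := fun i =>
    X.injective_subtype.comp (f.injective.comp (e.injective.comp (Finsupp.single_injective i)))
  have hle : ∀ i, LinearMap.range (j i) ≤ X := by rintro i _ ⟨v, rfl⟩; exact (f _).2
  refine ⟨_, hle 0, _, hle 1, disjoint_def.2 ?_, (rank_range_of_injective _ (hj 0)).ge,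
    (rank_range_of_injective _ (hj 1)).ge⟩
  rintro _ ⟨v, rfl⟩ ⟨w, hw⟩
  have := DFunLike.congr_fun (e.injective (f.injective (X.injective_subtype hw))) 0
  simp only [Finsupp.lsingle_apply, Finsupp.single_eq_same, ne_eq, zero_ne_one,
    not_false_eq_true, Finsupp.single_eq_of_ne] at this
  rw [← this, map_zero]

end Pool.Agent.H.MP_5cf805_al
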